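import Pool.Agent.H741.RS.Stm2

/-!
# RS-REPD: the derivative of the representation on the kernels (helper127 for helper741)
-/

set_option autoImplicit false
open scoped ComplexConjugate

namespace Pool.Agent.H127.RS

open Pool.Agent.H741.RS

/-- `U - 1` -/
noncomputable abbrev Tm {n : ℕ} (U : V n ≃ₗᵢ[ℂ] V n) : V n →L[ℂ] V n :=
  (U : V n →L[ℂ] V n) - ContinuousLinearMap.id ℂ (V n)

lemma Tm_apply {n : ℕ} (U : V n ≃ₗᵢ[ℂ] V n) (z : V n) : Tm U z = U z - z := rfl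

lemma apply_inv {n : ℕ} (U : V n ≃ₗᵢ[ℂ] V n) (z : V n) : U (U⁻¹ z) = z := U.apply_symm_apply z

lemma norm_inv_sub {n : ℕ} (U : V n ≃ₗᵢ[ℂ] V n) (z : V n) : ‖U⁻¹ z - z‖ ≤ ‖Tm U‖ * ‖z‖ := by
  have h : ‖U⁻¹ z - z‖ = ‖Tm U z‖ := by
    rw [← U.norm_map (U⁻¹ z - z), map_sub, Tm_apply, apply_inv, norm_sub_rev]
  rw [h]
  exact (Tm U).le_opNorm z

lemma norm_inv_sub2 {n : ℕ} (U : V n ≃ₗᵢ[ℂ] V n) (z : V n) :
    ‖U⁻¹ z - z + Tm U z‖ ≤ ‖Tm U‖ ^ 2 * ‖z‖ := by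
  have h : ‖U⁻¹ z - z + Tm U z‖ = ‖Tm U (Tm U z)‖ := by
    rw [← U.norm_map (U⁻¹ z - z + Tm U z)]
    congr 1
    rw [Tm_apply, Tm_apply, map_add, map_sub, map_sub, apply_inv]
    abel
  rw [h]
  calc ‖Tm U (Tm U z)‖ ≤ ‖Tm U‖ * ‖Tm U z‖ := (Tm U).le_opNorm _
    _ ≤ ‖Tm U‖ * (‖Tm U‖ * ‖z‖) :=
        mul_le_mul_of_nonneg_left ((Tm U).le_opNorm z) (norm_nonneg _)
    _ = ‖Tm U‖ ^ 2 * ‖z‖ := by ring

lemma pt {n k : ℕ} {u : V n → V n → ℂ} {L : V n → V n → (V n × V n →ₗ[ℝ] ℂ)} {C : ℝ} (hC : 0 ≤ C)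
    (hL : ∀ z w a b : V n, ‖a‖ ≤ 4 * ‖z‖ → ‖b‖ ≤ 4 * ‖w‖ →
      ‖u (z + a) (w + b) - u z w - L z w (a, b)‖ ≤
        C * (‖a‖ + ‖b‖) ^ 2 * (1 + ‖z‖ + ‖w‖) ^ (2 * k))
    (z w : V n) : ∃ K : ℝ, 0 ≤ K ∧ ∀ U : V n ≃ₗᵢ[ℂ] V n,
      ‖u (U⁻¹ z) (U⁻¹ w) - u z w + L z w (Tm U z, Tm U w)‖ ≤ K * ‖Tm U‖ ^ 2 := by
  refine ⟨C * (‖z‖ + ‖w‖) ^ 2 * (1 + ‖z‖ + ‖w‖) ^ (2 * k) +
    ‖LinearMap.toContinuousLinearMap (L z w)‖ * (‖z‖ + ‖w‖), by positivity, fun U => ?_⟩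
  have ha2 : ∀ z : V n, ‖U⁻¹ z - z‖ ≤ 4 * ‖z‖ := fun z => by
    have h1 := norm_sub_le (U⁻¹ z) z
    rw [LinearIsometryEquiv.norm_map] at h1
    linarith [norm_nonneg z]
  have h1 := hL z w (U⁻¹ z - z) (U⁻¹ w - w) (ha2 z) (ha2 w)
  rw [add_sub_cancel, add_sub_cancel] at h1
  have h2 : ‖L z w (U⁻¹ z - z + Tm U z, U⁻¹ w - w + Tm U w)‖ ≤
      ‖LinearMap.toContinuousLinearMap (L z w)‖ * (‖z‖ + ‖w‖) * ‖Tm U‖ ^ 2 := by
    have h3 := (LinearMap.toContinuousLinearMap (L z w)).le_opNorm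
      (U⁻¹ z - z + Tm U z, U⁻¹ w - w + Tm U w)
    have h4 : ‖((U⁻¹ z - z + Tm U z, U⁻¹ w - w + Tm U w) : V n × V n)‖ ≤
        ‖Tm U‖ ^ 2 * (‖z‖ + ‖w‖) := by
      rw [Prod.norm_def]
      have h5 := norm_inv_sub2 U z
      have h6 := norm_inv_sub2 U w
      have h7 : 0 ≤ ‖Tm U‖ ^ 2 * ‖z‖ := by positivity
      have h8 : 0 ≤ ‖Tm U‖ ^ 2 * ‖w‖ := by positivity
      refine max_le ?_ ?_
      · rw [mul_add]
        exact h5.trans (by linarith)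
      · rw [mul_add]
        exact h6.trans (by linarith)
    refine h3.trans ?_
    calc ‖LinearMap.toContinuousLinearMap (L z w)‖ *
          ‖((U⁻¹ z - z + Tm U z, U⁻¹ w - w + Tm U w) : V n × V n)‖
        ≤ ‖LinearMap.toContinuousLinearMap (L z w)‖ * (‖Tm U‖ ^ 2 * (‖z‖ + ‖w‖)) :=
          mul_le_mul_of_nonneg_left h4 (norm_nonneg _)
      _ = ‖LinearMap.toContinuousLinearMap (L z w)‖ * (‖z‖ + ‖w‖) * ‖Tm U‖ ^ 2 := by ring
  have h3 : u (U⁻¹ z) (U⁻¹ w) - u z w + L z w (Tm U z, Tm U w) =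
      (u (U⁻¹ z) (U⁻¹ w) - u z w - L z w (U⁻¹ z - z, U⁻¹ w - w)) +
        L z w (U⁻¹ z - z + Tm U z, U⁻¹ w - w + Tm U w) := by
    have h4 : ((U⁻¹ z - z + Tm U z, U⁻¹ w - w + Tm U w) : V n × V n) =
        (U⁻¹ z - z, U⁻¹ w - w) + (Tm U z, Tm U w) := rfl
    rw [h4, map_add]
    ring
  rw [h3]
  refine (norm_add_le _ _).trans ?_
  have h5 : C * (‖U⁻¹ z - z‖ + ‖U⁻¹ w - w‖) ^ 2 * (1 + ‖z‖ + ‖w‖) ^ (2 * k) ≤
      C * (‖z‖ + ‖w‖) ^ 2 * (1 + ‖z‖ + ‖w‖) ^ (2 * k) * ‖Tm U‖ ^ 2 := by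
    have h6 : ‖U⁻¹ z - z‖ + ‖U⁻¹ w - w‖ ≤ ‖Tm U‖ * (‖z‖ + ‖w‖) := by
      rw [mul_add]
      exact add_le_add (norm_inv_sub U z) (norm_inv_sub U w)
    calc C * (‖U⁻¹ z - z‖ + ‖U⁻¹ w - w‖) ^ 2 * (1 + ‖z‖ + ‖w‖) ^ (2 * k)
        ≤ C * (‖Tm U‖ * (‖z‖ + ‖w‖)) ^ 2 * (1 + ‖z‖ + ‖w‖) ^ (2 * k) := by gcongr
      _ = C * (‖z‖ + ‖w‖) ^ 2 * (1 + ‖z‖ + ‖w‖) ^ (2 * k) * ‖Tm U‖ ^ 2 := by ring
  calc _ ≤ C * (‖z‖ + ‖w‖) ^ 2 * (1 + ‖z‖ + ‖w‖) ^ (2 * k) * ‖Tm U‖ ^ 2 +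
        ‖LinearMap.toContinuousLinearMap (L z w)‖ * (‖z‖ + ‖w‖) * ‖Tm U‖ ^ 2 :=
        add_le_add (h1.trans h5) h2
    _ = _ := by ring

section dual

variable {n : ℕ} {E : Type} [NormedAddCommGroup E] [InnerProductSpace ℝ E]
  [FiniteDimensional ℝ E]

/-- the value at a point -/
noncomputable def pe (κ : E →ₗ[ℝ] (V n → V n → ℂ)) (z w : V n) : E →ₗ[ℝ] ℂ where
  toFun x := κ x z w
  map_add' x y := by
    rw [map_add]
    rfl
  map_smul' c x := by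
    rw [map_smul]
    rfl

/-- the real and imaginary parts of the values at the points -/
noncomputable def ST (κ : E →ₗ[ℝ] (V n → V n → ℂ)) : Set (Module.Dual ℝ E) :=
  {f | ∃ z w, f = Complex.reLm ∘ₗ pe κ z w ∨ f = Complex.imLm ∘ₗ pe κ z w}

lemma span_top {κ : E →ₗ[ℝ] (V n → V n → ℂ)} (hκ : Function.Injective κ) :
    Submodule.span ℝ (ST κ) = ⊤ := by
  have h1 : (Submodule.span ℝ (ST κ)).dualCoannihilator = ⊥ := by
    rw [eq_bot_iff]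
    intro x hx
    rw [Submodule.mem_dualCoannihilator] at hx
    rw [Submodule.mem_bot]
    apply hκ
    rw [map_zero]
    funext z w
    apply Complex.ext
    · exact hx _ (Submodule.subset_span ⟨z, w, Or.inl rfl⟩)
    · exact hx _ (Submodule.subset_span ⟨z, w, Or.inr rfl⟩)
  have h2 := Subspace.dualCoannihilator_dualAnnihilator_eq (W := Submodule.span ℝ (ST κ))
  rw [h1, Submodule.dualAnnihilator_bot] at h2
  exact h2.symm

/-- From bounds at all points to a bound of the norm. -/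
lemma from_points {κ : E →ₗ[ℝ] (V n → V n → ℂ)} (hκ : Function.Injective κ) {I : Type}
    (e : I → E) (s : I → ℝ) (hs : ∀ i, 0 ≤ s i)
    (h : ∀ z w, ∃ K : ℝ, ∀ i, ‖κ (e i) z w‖ ≤ K * s i) :
    ∃ K : ℝ, 0 ≤ K ∧ ∀ i, ‖e i‖ ≤ K * s i := by
  have h1 : ∀ f : Module.Dual ℝ E, ∃ K : ℝ, 0 ≤ K ∧ ∀ i, |f (e i)| ≤ K * s i := by
    intro f
    have hf : f ∈ Submodule.span ℝ (ST κ) := by
      rw [span_top hκ]
      trivial
    induction hf using Submodule.span_induction with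
    | mem f hf =>
      obtain ⟨z, w, hf⟩ := hf
      obtain ⟨K, hK⟩ := h z w
      refine ⟨|K|, abs_nonneg _, fun i => ?_⟩
      have h2 : ‖κ (e i) z w‖ ≤ |K| * s i :=
        (hK i).trans (mul_le_mul_of_nonneg_right (le_abs_self K) (hs i))
      rcases hf with rfl | rfl
      · exact (Complex.abs_re_le_norm (κ (e i) z w)).trans h2
      · exact (Complex.abs_im_le_norm (κ (e i) z w)).trans h2
    | zero =>
      refine ⟨0, le_rfl, fun i => ?_⟩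
      rw [LinearMap.zero_apply, abs_zero, zero_mul]
    | add f g _ _ hf hg =>
      obtain ⟨K, hK0, hK⟩ := hf
      obtain ⟨K', hK0', hK'⟩ := hg
      refine ⟨K + K', add_nonneg hK0 hK0', fun i => ?_⟩
      rw [LinearMap.add_apply, add_mul]
      exact (abs_add_le _ _).trans (add_le_add (hK i) (hK' i))
    | smul c f _ hf =>
      obtain ⟨K, hK0, hK⟩ := hf
      refine ⟨|c| * K, mul_nonneg (abs_nonneg _) hK0, fun i => ?_⟩
      rw [LinearMap.smul_apply, smul_eq_mul, abs_mul, mul_assoc]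
      exact mul_le_mul_of_nonneg_left (hK i) (abs_nonneg _)
  let b := Module.finBasis ℝ E
  choose K hK0 hK using fun j => h1 (b.coord j)
  refine ⟨∑ j, K j * ‖b j‖, Finset.sum_nonneg fun j _ => mul_nonneg (hK0 j) (norm_nonneg _),
    fun i => ?_⟩
  have h2 : e i = ∑ j, b.coord j (e i) • b j := (b.sum_repr (e i)).symm
  calc ‖e i‖ = ‖∑ j, b.coord j (e i) • b j‖ := congrArg norm h2
    _ ≤ ∑ j, ‖b.coord j (e i) • b j‖ := norm_sum_le _ _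
    _ ≤ ∑ j, (K j * s i) * ‖b j‖ := Finset.sum_le_sum fun j _ => by
        rw [norm_smul, Real.norm_eq_abs]
        exact mul_le_mul_of_nonneg_right (hK j i) (norm_nonneg _)
    _ = (∑ j, K j * ‖b j‖) * s i := by
        rw [Finset.sum_mul]
        exact Finset.sum_congr rfl fun j _ => by ring

end dual

/-- REPD -/
theorem t_REPD (h1 : S_TAY) : S_REPD := by
  intro n k E _ _ _ R
  let b := Module.finBasis ℝ E
  choose L C hC hL1 hL2 using fun i => h1 n k (R.κ (b i)) (R.herm (b i)).1 (R.herm (b i)).2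
  choose d0 hd0 using fun i (T : V n →L[ℂ] V n) => R.surj _ (hL2 i T).1 (hL2 i T).2
  let d : ∀ _ : Fin (Module.finrank ℝ E), (V n →L[ℂ] V n) →ₗ[ℝ] E := fun i =>
    { toFun := d0 i
      map_add' := fun T T' => by
        apply R.inj
        rw [map_add, hd0, hd0, hd0]
        funext z w
        show L i z w ((T + T') z, (T + T') w) = L i z w (T z, T w) + L i z w (T' z, T' w)
        rw [← map_add]
        rfl
      map_smul' := fun c T => by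
        apply R.inj
        rw [map_smul, hd0, hd0]
        funext z w
        show L i z w ((c • T) z, (c • T) w) = c • L i z w (T z, T w)
        rw [← map_smul]
        rfl }
  have hd : ∀ i T z w, R.κ (d i T) z w = L i z w (T z, T w) := fun i T z w =>
    congrFun (congrFun (hd0 i T) z) w
  let D : (V n →L[ℂ] V n) →ₗ[ℝ] (E →ₗ[ℝ] E) :=
    (b.constr ℝ).toLinearMap ∘ₗ LinearMap.pi (fun i => - d i)
  have hD : ∀ T x, D T x = ∑ i, b.equivFun x i • (- d i T) := fun T x =>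
    b.constr_apply_fintype ℝ (fun i => - d i T) x
  have hDκ : ∀ T x z w, R.κ (D T x) z w = - ∑ i, (b.equivFun x i) • L i z w (T z, T w) := by
    intro T x z w
    have h2 : R.κ (D T x) z w = pe R.κ z w (D T x) := rfl
    rw [h2, hD, map_sum, ← Finset.sum_neg_distrib]
    refine Finset.sum_congr rfl fun i _ => ?_
    rw [map_smul, map_neg, smul_neg]
    congr 2
    exact hd i T z w
  have hκx : ∀ x z w, R.κ x z w = ∑ i, (b.equivFun x i) • R.κ (b i) z w := by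
    intro x z w
    have h2 : R.κ x z w = pe R.κ z w x := rfl
    conv_lhs => rw [h2, ← b.sum_equivFun x]
    rw [map_sum]
    refine Finset.sum_congr rfl fun i _ => ?_
    rw [map_smul]
    rfl
  have hρ : ∀ (U : V n ≃ₗᵢ[ℂ] V n) x z w, R.κ (R.ρ U x) z w = R.κ x (U⁻¹ z) (U⁻¹ w) := by
    intro U x z w
    have h2 := R.equi U x (U⁻¹ z) (U⁻¹ w)
    rwa [apply_inv, apply_inv] at h2
  have key : ∀ z w : V n, ∃ K : ℝ, ∀ i : (V n ≃ₗᵢ[ℂ] V n) × E,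
      ‖R.κ (R.ρ i.1 i.2 - i.2 - D (Tm i.1) i.2) z w‖ ≤ K * (‖Tm i.1‖ ^ 2 * ‖i.2‖) := by
    intro z w
    choose K hK0 hK using fun i => pt (hC i) (hL1 i) z w
    refine ⟨∑ i, ‖LinearMap.toContinuousLinearMap (b.coord i)‖ * K i, ?_⟩
    rintro ⟨U, x⟩
    dsimp only
    have h2 : R.κ (R.ρ U x - x - D (Tm U) x) z w =
        ∑ i, (b.equivFun x i) • (R.κ (b i) (U⁻¹ z) (U⁻¹ w) - R.κ (b i) z w +
          L i z w (Tm U z, Tm U w)) := by
      have h3 : R.κ (R.ρ U x - x - D (Tm U) x) z w =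
          R.κ (R.ρ U x) z w - R.κ x z w - R.κ (D (Tm U) x) z w := by
        rw [map_sub, map_sub]
        rfl
      rw [h3, hρ, hDκ, hκx x (U⁻¹ z) (U⁻¹ w), hκx x z w, sub_neg_eq_add,
        ← Finset.sum_sub_distrib, ← Finset.sum_add_distrib]
      exact Finset.sum_congr rfl fun i _ => by rw [smul_add, smul_sub]
    rw [h2]
    calc _ ≤ ∑ i, ‖(b.equivFun x i) • (R.κ (b i) (U⁻¹ z) (U⁻¹ w) - R.κ (b i) z w +
          L i z w (Tm U z, Tm U w))‖ := norm_sum_le _ _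
      _ ≤ ∑ i, (‖LinearMap.toContinuousLinearMap (b.coord i)‖ * ‖x‖) * (K i * ‖Tm U‖ ^ 2) := by
          refine Finset.sum_le_sum fun i _ => ?_
          rw [norm_smul]
          refine mul_le_mul ?_ (hK i U) (norm_nonneg _) (by positivity)
          exact (LinearMap.toContinuousLinearMap (b.coord i)).le_opNorm x
      _ = (∑ i, ‖LinearMap.toContinuousLinearMap (b.coord i)‖ * K i) * (‖Tm U‖ ^ 2 * ‖x‖) := by
          rw [Finset.sum_mul]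
          exact Finset.sum_congr rfl fun i _ => by ring
  obtain ⟨K, hK0, hK⟩ := from_points R.inj
    (fun i : (V n ≃ₗᵢ[ℂ] V n) × E => R.ρ i.1 i.2 - i.2 - D (Tm i.1) i.2)
    (fun i => ‖Tm i.1‖ ^ 2 * ‖i.2‖) (fun i => by positivity) key
  refine ⟨⟨R.ρ, D, K, hK0, fun U x => ?_⟩, rfl⟩
  have h2 := hK (U, x)
  rw [← mul_assoc] at h2
  exact h2

end Pool.Agent.H127.RS
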